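import Mathlib

set_option autoImplicit false

namespace Pool.Agent.Results.MP_047b76_an.AllC1Curves

noncomputable section

/-- The frequencies. -/
def freq (n : ℕ) : ℝ := 8 ^ n * (n * (n.factorial : ℝ))

/-- The amplitudes. -/
def amp (n : ℕ) : ℝ := (1 / 8 : ℝ) ^ n

lemma amp_mul_freq (n : ℕ) : amp n * freq n = n * (n.factorial : ℝ) := by
  unfold amp freq
  rw [← mul_assoc, ← mul_pow]
  norm_num

lemma freq_nonneg (n : ℕ) : 0 ≤ freq n := by unfold freq; positivity

lemma amp_pos (n : ℕ) : 0 < amp n := by unfold amp; positivity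

lemma sum_amp_freq (n : ℕ) : 1 + ∑ m ∈ Finset.range n, amp m * freq m = n.factorial := by
  induction n with
  | zero => simp
  | succ k ih =>
    rw [Finset.sum_range_succ, ← add_assoc, ih, amp_mul_freq, Nat.factorial_succ]
    push_cast
    ring

lemma summable_amp : Summable amp := summable_geometric_of_lt_one (by norm_num) (by norm_num)

lemma tsum_tail (n : ℕ) : ∑' m, amp (m + (n + 1)) = amp n / 7 := by
  have : ∀ m, amp (m + (n + 1)) = amp m * (amp n / 8) := by
    intro m; unfold amp; rw [pow_add, pow_succ]; ring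
  simp_rw [this]
  rw [tsum_mul_right]
  have h : ∑' m, amp m = (1 - 1 / 8)⁻¹ := tsum_geometric_of_lt_one (by norm_num) (by norm_num)
  rw [h]; ring

section
variable (d : ℕ) [NeZero d]

/-- The coordinate used at scale `n`. -/
def idx (n : ℕ) : Fin d := Fin.ofNat d n

/-- The function. -/
def F (x : EuclideanSpace ℝ (Fin d)) : ℝ := ∑' n : ℕ, amp n * Real.cos (freq n * x (idx d n))

lemma continuous_F : Continuous (F d) := by
  unfold F
  refine continuous_tsum (u := amp) ?_ summable_amp ?_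
  · intro n
    fun_prop
  · intro n x
    rw [norm_mul, Real.norm_eq_abs, Real.norm_eq_abs, abs_of_pos (amp_pos n)]
    have := Real.abs_cos_le_one (freq n * x (idx d n))
    nlinarith [amp_pos n]

lemma summable_term (x : EuclideanSpace ℝ (Fin d)) :
    Summable fun n => amp n * Real.cos (freq n * x (idx d n)) := by
  refine Summable.of_norm_bounded summable_amp ?_
  intro n
  rw [norm_mul, Real.norm_eq_abs, Real.norm_eq_abs, abs_of_pos (amp_pos n)]
  have := Real.abs_cos_le_one (freq n * x (idx d n))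
  nlinarith [amp_pos n]

/-- Lower bound of the difference of two values in terms of scale `n`. -/
lemma F_diff (n : ℕ) (x y : EuclideanSpace ℝ (Fin d))
    (hx : Real.cos (freq n * x (idx d n)) = 1) (hy : Real.cos (freq n * y (idx d n)) = -1) :
    amp n ≤ |F d x - F d y| + (∑ m ∈ Finset.range n, amp m * freq m) * ‖x - y‖ := by
  set u : ℕ → ℝ := fun m => amp m * Real.cos (freq m * x (idx d m)) -
    amp m * Real.cos (freq m * y (idx d m)) with hu
  have hsu : Summable u := (summable_term d x).sub (summable_term d y)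
  have h1 : F d x - F d y = ∑' m, u m := by
    unfold F
    rw [← (summable_term d x).tsum_sub (summable_term d y)]
  have h2 : ∑' m, u m = ∑ m ∈ Finset.range n, u m + u n + ∑' m, u (m + (n + 1)) := by
    rw [← hsu.sum_add_tsum_nat_add (n + 1), Finset.sum_range_succ]
  have hun : u n = 2 * amp n := by
    simp only [hu, hx, hy]; ring
  have h3 : |∑ m ∈ Finset.range n, u m| ≤ (∑ m ∈ Finset.range n, amp m * freq m) * ‖x - y‖ := by
    rw [Finset.sum_mul]
    refine (Finset.abs_sum_le_sum_abs _ _).trans (Finset.sum_le_sum ?_)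
    intro m _
    simp only [hu]
    rw [← mul_sub, abs_mul, abs_of_pos (amp_pos m), mul_assoc]
    refine mul_le_mul_of_nonneg_left ?_ (amp_pos m).le
    refine (Real.abs_cos_sub_cos_le _ _).trans ?_
    rw [← mul_sub, abs_mul, abs_of_nonneg (freq_nonneg m)]
    refine mul_le_mul_of_nonneg_left ?_ (freq_nonneg m)
    have := PiLp.norm_apply_le (x - y) (idx d m)
    simpa using this
  have h4 : |∑' m, u (m + (n + 1))| ≤ 2 * (amp n / 7) := by
    have hs : Summable fun m => 2 * amp (m + (n + 1)) :=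
      ((summable_nat_add_iff (n + 1)).2 summable_amp).mul_left 2
    rw [← tsum_tail n, ← tsum_mul_left]
    rw [← Real.norm_eq_abs]
    refine tsum_of_norm_bounded hs.hasSum ?_
    intro m
    simp only [hu]
    rw [← mul_sub, Real.norm_eq_abs, abs_mul, abs_of_pos (amp_pos _), mul_comm 2]
    refine mul_le_mul_of_nonneg_left ?_ (amp_pos _).le
    have a1 := Real.abs_cos_le_one (freq (m + (n + 1)) * x (idx d (m + (n + 1))))
    have a2 := Real.abs_cos_le_one (freq (m + (n + 1)) * y (idx d (m + (n + 1))))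
    have := abs_sub (Real.cos (freq (m + (n + 1)) * x (idx d (m + (n + 1)))))
      (Real.cos (freq (m + (n + 1)) * y (idx d (m + (n + 1)))))
    linarith
  have h5 : F d x - F d y = ∑ m ∈ Finset.range n, u m + 2 * amp n + ∑' m, u (m + (n + 1)) := by
    rw [h1, h2, hun]
  have h6 := neg_abs_le (∑ m ∈ Finset.range n, u m)
  have h7 := neg_abs_le (∑' m, u (m + (n + 1)))
  have h8 := le_abs_self (F d x - F d y)
  have h9 := amp_pos n
  linarith

end

/-- A continuous real function on `[0,l]` whose total displacement is at least one period takes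
values where the cosine equals one and minus one. -/
lemma exists_cos (g : ℝ → ℝ) (l b : ℝ) (hl : 0 < l) (hb : 0 < b)
    (hg : ContinuousOn g (Set.Icc 0 l)) (hd : 2 * Real.pi / b ≤ |g l - g 0|) :
    (∃ s ∈ Set.Icc 0 l, Real.cos (b * g s) = 1) ∧ (∃ s ∈ Set.Icc 0 l, Real.cos (b * g s) = -1) := by
  have hmem0 : (0 : ℝ) ∈ Set.Icc 0 l := ⟨le_rfl, hl.le⟩
  have hmeml : l ∈ Set.Icc 0 l := ⟨hl.le, le_rfl⟩
  have hivt : Set.uIcc (g 0) (g l) ⊆ g '' Set.Icc 0 l := by
    have := intermediate_value_uIcc (a := 0) (b := l) (f := g) (by rwa [Set.uIcc_of_le hl.le])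
    rwa [Set.uIcc_of_le hl.le] at this
  -- the interval `[m, M]` of values
  have hlen : 2 * Real.pi / b ≤ max (g 0) (g l) - min (g 0) (g l) := by
    rw [max_sub_min_eq_abs]; exact hd
  have hpi := Real.pi_pos
  have hval : ∀ w : ℝ, min (g 0) (g l) ≤ w → w ≤ max (g 0) (g l) →
      ∃ s ∈ Set.Icc 0 l, g s = w := by
    intro w h1 h2
    exact hivt ⟨h1, h2⟩
  set m := min (g 0) (g l)
  set M := max (g 0) (g l)
  -- existence of a point of `θ + 2πℤ` in `[b m, b m + 2 π]`
  have hpt : ∀ θ : ℝ, ∃ k : ℤ, b * m ≤ θ + k * (2 * Real.pi) ∧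
      θ + k * (2 * Real.pi) ≤ b * M := by
    intro θ
    refine ⟨⌈(b * m - θ) / (2 * Real.pi)⌉, ?_, ?_⟩
    · have := Int.le_ceil ((b * m - θ) / (2 * Real.pi))
      rw [div_le_iff₀ (by positivity)] at this
      linarith
    · have h1 := (Int.ceil_lt_add_one ((b * m - θ) / (2 * Real.pi))).le
      have h2 : (⌈(b * m - θ) / (2 * Real.pi)⌉ : ℝ) * (2 * Real.pi) ≤
          ((b * m - θ) / (2 * Real.pi) + 1) * (2 * Real.pi) :=
        mul_le_mul_of_nonneg_right h1 (by positivity)
      have h3 : ((b * m - θ) / (2 * Real.pi) + 1) * (2 * Real.pi) = b * m - θ + 2 * Real.pi := by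
        field_simp
      have h4 : 2 * Real.pi ≤ b * (M - m) := by
        rw [div_le_iff₀ hb] at hlen
        linarith
      linarith
  refine ⟨?_, ?_⟩
  · obtain ⟨k, h1, h2⟩ := hpt 0
    obtain ⟨s, hs, hgs⟩ := hval ((0 + k * (2 * Real.pi)) / b)
      (by rw [le_div_iff₀ hb]; linarith) (by rw [div_le_iff₀ hb]; linarith)
    refine ⟨s, hs, ?_⟩
    rw [hgs, mul_div_cancel₀ _ hb.ne', zero_add]
    exact Real.cos_int_mul_two_pi k
  · obtain ⟨k, h1, h2⟩ := hpt Real.pi
    obtain ⟨s, hs, hgs⟩ := hval ((Real.pi + k * (2 * Real.pi)) / b)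
      (by rw [le_div_iff₀ hb]; linarith) (by rw [div_le_iff₀ hb]; linarith)
    refine ⟨s, hs, ?_⟩
    rw [hgs, mul_div_cancel₀ _ hb.ne', Real.cos_add_int_mul_two_pi]
    exact Real.cos_pi

section
variable (d : ℕ) [NeZero d]

lemma key (γ : ℝ → EuclideanSpace ℝ (Fin d)) (v : EuclideanSpace ℝ (Fin d)) (hv : v ≠ 0)
    (δ : ℝ) (hδ : 0 < δ) (hc : ContinuousOn γ (Set.Icc 0 δ))
    (hd : HasDerivWithinAt γ v (Set.Icc 0 δ) 0) (L : ℝ)
    (hL : HasDerivWithinAt (fun t => F d (γ t)) L (Set.Icc 0 δ) 0) : False := by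
  obtain ⟨j, hj⟩ : ∃ j, v j ≠ 0 := by
    by_contra h
    push Not at h
    exact hv (by ext i; simpa using h i)
  have hjpos : 0 < |v j| := abs_pos.2 hj
  -- linearisation of the curve
  have e1 := (hasDerivWithinAt_iff_isLittleO.1 hd).def (show 0 < |v j| / 2 by positivity)
  have e2 := (hasDerivWithinAt_iff_isLittleO.1 hL).def (show (0 : ℝ) < 1 by norm_num)
  simp only [sub_zero] at e1 e2
  have e3 := e1.and e2
  rw [eventually_nhdsWithin_iff, Metric.eventually_nhds_iff] at e3
  obtain ⟨r, hr, hr'⟩ := e3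
  -- choose the good radius
  obtain ⟨ρ, hρ, hρδ, hρ1, hρ2⟩ : ∃ ρ, 0 < ρ ∧ ρ ≤ δ ∧
      (∀ t, 0 ≤ t → t ≤ ρ → ‖γ t - γ 0 - t • v‖ ≤ |v j| / 2 * t) ∧
      (∀ t, 0 ≤ t → t ≤ ρ → |F d (γ t) - F d (γ 0)| ≤ (|L| + 1) * t) := by
    refine ⟨min δ (r / 2), by positivity, min_le_left _ _, ?_, ?_⟩
    · intro t h0 h1
      have := (hr' (y := t) (by
        rw [Real.dist_eq, sub_zero, abs_of_nonneg h0]
        have := h1.trans (min_le_right _ _)
        linarith) ⟨h0, h1.trans (min_le_left _ _)⟩).1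
      rwa [Real.norm_eq_abs, abs_of_nonneg h0] at this
    · intro t h0 h1
      have := (hr' (y := t) (by
        rw [Real.dist_eq, sub_zero, abs_of_nonneg h0]
        have := h1.trans (min_le_right _ _)
        linarith) ⟨h0, h1.trans (min_le_left _ _)⟩).2
      rw [Real.norm_eq_abs, Real.norm_eq_abs, abs_of_nonneg h0, smul_eq_mul] at this
      have h3 := abs_le.1 this
      rw [abs_le]
      have h4 := neg_abs_le L
      have h5 := le_abs_self L
      constructor <;> nlinarith [h3.1, h3.2]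
  -- speed bound
  set V : ℝ := ‖v‖ + |v j| / 2 with hV
  have hVpos : 0 < V := by positivity
  have hγ : ∀ t, 0 ≤ t → t ≤ ρ → ‖γ t - γ 0‖ ≤ V * t := by
    intro t h0 h1
    have h2 := hρ1 t h0 h1
    have h3 : γ t - γ 0 = (γ t - γ 0 - t • v) + t • v := by abel
    rw [h3]
    refine (norm_add_le _ _).trans ?_
    rw [norm_smul, Real.norm_eq_abs, abs_of_nonneg h0, hV]
    linarith
  -- the large constant
  set K : ℝ := 4 * Real.pi / |v j| * (2 * (|L| + 1) + 2 * V) with hK
  obtain ⟨N, hN⟩ := exists_nat_gt (max K (4 * Real.pi / |v j| / ρ))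
  set n : ℕ := j.val + d * (N + 1) with hn
  have hidx : idx d n = j := by
    apply Fin.ext
    simp [idx, hn, Nat.mod_eq_of_lt j.isLt]
  have hd1 : 1 ≤ d := Nat.one_le_iff_ne_zero.2 (NeZero.ne d)
  have hnN : N + 1 ≤ n := by
    rw [hn]; nlinarith
  have hnN' : (N : ℝ) + 1 ≤ n := by exact_mod_cast hnN
  have hKn : K < n := by
    have := le_max_left K (4 * Real.pi / |v j| / ρ)
    linarith
  have hρn : 4 * Real.pi / |v j| / ρ < n := by
    have := le_max_right K (4 * Real.pi / |v j| / ρ)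
    linarith
  have hn0 : (0 : ℝ) < n := by
    have : (0 : ℝ) ≤ N := Nat.cast_nonneg N
    linarith
  have hfac : (1 : ℝ) ≤ n.factorial := by exact_mod_cast Nat.factorial_pos n
  have hfreqn : (n : ℝ) ≤ freq n := by
    unfold freq
    have h8 : (1 : ℝ) ≤ 8 ^ n := one_le_pow₀ (by norm_num)
    have h9 : (n : ℝ) * 1 ≤ n * n.factorial := mul_le_mul_of_nonneg_left hfac hn0.le
    have h10 : 1 * ((n : ℝ) * n.factorial) ≤ 8 ^ n * (n * n.factorial) :=
      mul_le_mul_of_nonneg_right h8 (by positivity)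
    linarith
  have hfpos : 0 < freq n := by linarith
  set l : ℝ := 4 * Real.pi / |v j| / freq n with hl
  have hpi := Real.pi_pos
  have hlpos : 0 < l := by positivity
  have hlρ : l ≤ ρ := by
    rw [hl, div_le_iff₀ hfpos]
    rw [div_lt_iff₀ hρ] at hρn
    nlinarith
  have hsub : Set.Icc 0 l ⊆ Set.Icc 0 δ := Set.Icc_subset_Icc le_rfl (hlρ.trans hρδ)
  have hgc : ContinuousOn (fun t => (γ t) j) (Set.Icc 0 l) := by
    have := (hc.mono hsub)
    fun_prop
  have hgd : 2 * Real.pi / freq n ≤ |(fun t => (γ t) j) l - (fun t => (γ t) j) 0| := by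
    have h2 := hρ1 l hlpos.le hlρ
    have h3 := (PiLp.norm_apply_le (γ l - γ 0 - l • v) j).trans h2
    simp only [PiLp.sub_apply, PiLp.smul_apply, smul_eq_mul, Real.norm_eq_abs] at h3
    have h4 : |l * v j| - |(γ l) j - (γ 0) j| ≤ |(γ l) j - (γ 0) j - l * v j| := by
      have := abs_sub_abs_le_abs_sub (l * v j) ((γ l) j - (γ 0) j)
      rwa [abs_sub_comm (l * v j)] at this
    rw [abs_mul, abs_of_pos hlpos] at h4
    have h5 : l * |v j| = 4 * Real.pi / freq n := by
      rw [hl]; field_simp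
    have h6 : 2 * Real.pi / freq n = (4 * Real.pi / freq n) / 2 := by ring
    show 2 * Real.pi / freq n ≤ |(γ l) j - (γ 0) j|
    rw [h6, ← h5]
    linarith
  obtain ⟨⟨s, hs, hs'⟩, ⟨t, ht, ht'⟩⟩ := exists_cos _ l (freq n) hlpos hfpos hgc hgd
  have hF := F_diff d n (γ s) (γ t) (by rw [hidx]; exact hs') (by rw [hidx]; exact ht')
  -- upper bounds
  have hs1 := hρ2 s hs.1 (hs.2.trans hlρ)
  have ht1 := hρ2 t ht.1 (ht.2.trans hlρ)
  have hup1 : |F d (γ s) - F d (γ t)| ≤ 2 * (|L| + 1) * l := by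
    have h1 : F d (γ s) - F d (γ t) = (F d (γ s) - F d (γ 0)) - (F d (γ t) - F d (γ 0)) := by ring
    rw [h1]
    refine (abs_sub _ _).trans ?_
    have h2 : (|L| + 1) * s ≤ (|L| + 1) * l := mul_le_mul_of_nonneg_left hs.2 (by positivity)
    have h3 : (|L| + 1) * t ≤ (|L| + 1) * l := mul_le_mul_of_nonneg_left ht.2 (by positivity)
    linarith
  have hup2 : ‖γ s - γ t‖ ≤ 2 * V * l := by
    have h1 : γ s - γ t = (γ s - γ 0) - (γ t - γ 0) := by abel
    rw [h1]
    refine (norm_sub_le _ _).trans ?_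
    have h2 := hγ s hs.1 (hs.2.trans hlρ)
    have h3 := hγ t ht.1 (ht.2.trans hlρ)
    have h4 : V * s ≤ V * l := mul_le_mul_of_nonneg_left hs.2 hVpos.le
    have h5 : V * t ≤ V * l := mul_le_mul_of_nonneg_left ht.2 hVpos.le
    linarith
  set G : ℝ := ∑ m ∈ Finset.range n, amp m * freq m with hG
  have hG0 : 0 ≤ G := Finset.sum_nonneg fun m _ => mul_nonneg (amp_pos m).le (freq_nonneg m)
  have hG1 : 1 + G = n.factorial := sum_amp_freq n
  have hfin : amp n ≤ 2 * (|L| + 1) * l + G * (2 * V * l) := by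
    have := mul_le_mul_of_nonneg_left hup2 hG0
    linarith
  -- multiply by the frequency
  have hlf : l * freq n = 4 * Real.pi / |v j| := by
    rw [hl]; field_simp
  have hfin2 : amp n * freq n ≤ (2 * (|L| + 1) + G * (2 * V)) * (4 * Real.pi / |v j|) := by
    have := mul_le_mul_of_nonneg_right hfin hfpos.le
    calc amp n * freq n ≤ (2 * (|L| + 1) * l + G * (2 * V * l)) * freq n := this
      _ = (2 * (|L| + 1) + G * (2 * V)) * (l * freq n) := by ring
      _ = _ := by rw [hlf]
  have hfin3 : (2 * (|L| + 1) + G * (2 * V)) * (4 * Real.pi / |v j|) ≤ K * (1 + G) := by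
    rw [hK]
    have h0 : 0 ≤ 2 * (|L| + 1) := by positivity
    have h1 : 2 * (|L| + 1) + G * (2 * V) ≤ (2 * (|L| + 1) + 2 * V) * (1 + G) := by
      have e1 : 0 ≤ 2 * (|L| + 1) * G := mul_nonneg h0 hG0
      have e2 : (2 * (|L| + 1) + 2 * V) * (1 + G) =
        2 * (|L| + 1) + G * (2 * V) + (2 * (|L| + 1) * G + 2 * V) := by ring
      rw [e2]
      linarith
    have h2 : 0 ≤ 4 * Real.pi / |v j| := by positivity
    have h3 := mul_le_mul_of_nonneg_right h1 h2
    have h4 : (2 * (|L| + 1) + 2 * V) * (1 + G) * (4 * Real.pi / |v j|) =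
      4 * Real.pi / |v j| * (2 * (|L| + 1) + 2 * V) * (1 + G) := by ring
    rw [← h4]
    exact h3
  rw [amp_mul_freq] at hfin2
  have h1G : 0 < 1 + G := by linarith
  have : (n : ℝ) * (1 + G) ≤ K * (1 + G) := by
    rw [hG1] at hfin3 ⊢
    linarith
  have := le_of_mul_le_mul_right this h1G
  linarith

end

/-- Along every curve that is continuous on an interval, at every point where the curve has a
nonzero (possibly one-sided) derivative, the restriction of `F` has no derivative. -/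
theorem result : ∀ d : ℕ, 1 ≤ d → ∃ f : EuclideanSpace ℝ (Fin d) → ℝ, Continuous f ∧
    ∀ (I : Set ℝ) (c : ℝ → EuclideanSpace ℝ (Fin d)), I.OrdConnected → I.Nontrivial →
      ContinuousOn c I → ∀ t₀ ∈ I, ∀ v : EuclideanSpace ℝ (Fin d), v ≠ 0 →
        HasDerivWithinAt c v I t₀ → ¬ DifferentiableWithinAt ℝ (fun t => f (c t)) I t₀ := by
  intro d hd
  have : NeZero d := ⟨by omega⟩
  refine ⟨F d, continuous_F d, ?_⟩
  intro I c hI hnt hc t₀ ht₀ v hv hcv hdiff
  obtain ⟨s, hs, hst⟩ := hnt.exists_ne t₀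
  have hL := hdiff.hasDerivWithinAt
  set L := derivWithin (fun t => F d (c t)) I t₀
  rcases lt_or_gt_of_ne hst with h | h
  · -- `s < t₀`
    have hsub : ∀ t ∈ Set.Icc 0 (t₀ - s), t₀ - t ∈ I := by
      intro t ht
      exact hI.out hs ht₀ ⟨by linarith [ht.2], by linarith [ht.1]⟩
    have hmap : Set.MapsTo (fun t : ℝ => t₀ - t) (Set.Icc 0 (t₀ - s)) I := hsub
    have hder : HasDerivWithinAt (fun t : ℝ => t₀ - t) (-1) (Set.Icc 0 (t₀ - s)) 0 := by
      simpa using ((hasDerivAt_id (0 : ℝ)).const_sub t₀).hasDerivWithinAt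
    refine key d (fun t => c (t₀ - t)) (-v) (neg_ne_zero.2 hv) (t₀ - s) (by linarith) ?_ ?_ (-L) ?_
    · exact hc.comp (by fun_prop) hmap
    · have := HasDerivWithinAt.scomp (h := fun t : ℝ => t₀ - t) (h' := -1) (x := 0)
        (s := Set.Icc 0 (t₀ - s)) (t' := I) (g₁ := c) (g₁' := v) (by simpa using hcv) hder hmap
      simpa [Function.comp_def] using this
    · have := HasDerivWithinAt.scomp (h := fun t : ℝ => t₀ - t) (h' := -1) (x := 0)
        (s := Set.Icc 0 (t₀ - s)) (t' := I) (g₁ := fun t => F d (c t)) (g₁' := L)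
        (by simpa using hL) hder hmap
      simpa [Function.comp_def] using this
  · have hsub : ∀ t ∈ Set.Icc 0 (s - t₀), t₀ + t ∈ I := by
      intro t ht
      exact hI.out ht₀ hs ⟨by linarith [ht.1], by linarith [ht.2]⟩
    have hmap : Set.MapsTo (fun t : ℝ => t₀ + t) (Set.Icc 0 (s - t₀)) I := hsub
    have hder : HasDerivWithinAt (fun t : ℝ => t₀ + t) 1 (Set.Icc 0 (s - t₀)) 0 := by
      simpa using ((hasDerivAt_id (0 : ℝ)).const_add t₀).hasDerivWithinAt
    refine key d (fun t => c (t₀ + t)) v hv (s - t₀) (by linarith) ?_ ?_ L ?_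
    · exact hc.comp (by fun_prop) hmap
    · have := HasDerivWithinAt.scomp (h := fun t : ℝ => t₀ + t) (h' := 1) (x := 0)
        (s := Set.Icc 0 (s - t₀)) (t' := I) (g₁ := c) (g₁' := v) (by simpa using hcv) hder hmap
      simpa [Function.comp_def] using this
    · have := HasDerivWithinAt.scomp (h := fun t : ℝ => t₀ + t) (h' := 1) (x := 0)
        (s := Set.Icc 0 (s - t₀)) (t' := I) (g₁ := fun t => F d (c t)) (g₁' := L)
        (by simpa using hL) hder hmap
      simpa [Function.comp_def] using this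

end
end Pool.Agent.Results.MP_047b76_an.AllC1Curves
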